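import Mathlib
import Pool.Agent.H116.T37.Count

/-!
# MP_0702e0_co: contact numbers at the side length of the order-7 triangular tiling

For every `n ≥ 1` there are `n` points of the hyperbolic plane with pairwise distances at least
`d(7)` and at least `⌊7n/2 - √(5n²/4 + 15n - 4)⌋` pairs at distance exactly `d(7)`.

Proof. The vertices of the tiling are integral vectors over `ℤ[2cos(2π/7)]` for a quadratic form
which is definite at the two other real places; comparing the three places shows that two such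
vectors are equal or at distance at least `d(7)` (`T37.gap`). Layers around a vertex are generated
by a substitution `B ↦ BA`, `A ↦ BAA` on vertices with two parents (`B`) and one parent (`A`); they
consist of distinct points since the lowest neighbour of a vertex is a parent
(`T37.common_parent`). A vertex of a layer has its parents and its left neighbour as earlier
neighbours, and every prefix of the word of a layer has at least the average number of letters `B`
(`T37.prefix_ineq`); strict concavity of the square root between two complete layers finishes the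
proof.
-/

set_option autoImplicit false

open scoped Classical
open Pool.Agent.H116.T37

namespace Pool.Agent.Results.MP_0702e0_co.SpiralEquality

/-- The number of two-element subsets `{x, y}` of `P` with `dist x y = d`. -/
noncomputable def contacts (d : ℝ) (P : Finset UpperHalfPlane) : ℕ :=
  ((P.powersetCard 2).filter (fun s => ∀ x ∈ s, ∀ y ∈ s, x ≠ y → dist x y = d)).card

/-- `e_d(n)`: the maximum number of pairs at distance exactly `d` among `n` points of the
hyperbolic plane (upper half plane, curvature `-1`) with pairwise distances at least `d`. -/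
noncomputable def maxContacts (d : ℝ) (n : ℕ) : ℕ :=
  sSup {m | ∃ P : Finset UpperHalfPlane, P.card = n ∧
    (∀ x ∈ P, ∀ y ∈ P, x ≠ y → d ≤ dist x y) ∧ contacts d P = m}

lemma E2_le_contacts {d : ℝ} (hd : 0 < d) (P : Finset UpperHalfPlane) :
    E2 d P ≤ 2 * contacts d P := by
  unfold E2
  set S := (P ×ˢ P).filter (fun p => dist p.1 p.2 = d) with hS
  have hne : ∀ p ∈ S, p.1 ≠ p.2 := by
    intro p hp h
    rw [hS, Finset.mem_filter] at hp
    have := hp.2
    rw [h, dist_self] at this
    exact hd.ne this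
  have h1 : S.card ≤ 2 * (S.image (fun p => ({p.1, p.2} : Finset UpperHalfPlane))).card := by
    apply Finset.card_le_mul_card_image
    intro s hs
    rw [Finset.mem_image] at hs
    obtain ⟨q, hq, rfl⟩ := hs
    have hsub : S.filter (fun p => ({p.1, p.2} : Finset UpperHalfPlane) = {q.1, q.2}) ⊆
        {(q.1, q.2), (q.2, q.1)} := by
      intro p hp
      rw [Finset.mem_filter] at hp
      obtain ⟨hp1, hp2⟩ := hp
      have e1 : p.1 ∈ ({q.1, q.2} : Finset UpperHalfPlane) := by rw [← hp2]; simp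
      have e2 : p.2 ∈ ({q.1, q.2} : Finset UpperHalfPlane) := by rw [← hp2]; simp
      have e3 := hne p hp1
      rw [Finset.mem_insert, Finset.mem_singleton] at e1 e2
      rw [Finset.mem_insert, Finset.mem_singleton]
      rcases e1 with e1 | e1 <;> rcases e2 with e2 | e2
      · exact absurd (e1.trans e2.symm) e3
      · left; exact Prod.ext e1 e2
      · right; exact Prod.ext e1 e2
      · exact absurd (e1.trans e2.symm) e3
    exact (Finset.card_le_card hsub).trans Finset.card_le_two
  refine h1.trans (Nat.mul_le_mul_left 2 ?_)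
  unfold contacts
  apply Finset.card_le_card
  intro s hs
  rw [Finset.mem_image] at hs
  obtain ⟨p, hp, rfl⟩ := hs
  have e3 := hne p hp
  rw [hS, Finset.mem_filter, Finset.mem_product] at hp
  rw [Finset.mem_filter, Finset.mem_powersetCard]
  refine ⟨⟨?_, Finset.card_pair e3⟩, ?_⟩
  · intro z hz
    rw [Finset.mem_insert, Finset.mem_singleton] at hz
    rcases hz with rfl | rfl
    · exact hp.1.1
    · exact hp.1.2
  · intro x hx y hy hxy
    rw [Finset.mem_insert, Finset.mem_singleton] at hx hy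
    rcases hx with rfl | rfl <;> rcases hy with rfl | rfl
    · exact absurd rfl hxy
    · exact hp.2
    · rw [dist_comm]; exact hp.2
    · exact absurd rfl hxy

lemma cosh_of_tanh {d : ℝ} (hd : 0 < d)
    (h : Real.tanh (d / 2) / Real.tanh d = Real.cos (2 * Real.pi / 7)) : Real.cosh d = c0 := by
  have hs : 0 < Real.sinh (d / 2) := Real.sinh_pos_iff.mpr (by linarith)
  have hc : 0 < Real.cosh (d / 2) := Real.cosh_pos _
  have e1 : Real.sinh d = 2 * Real.sinh (d / 2) * Real.cosh (d / 2) := by
    rw [← Real.sinh_two_mul]; congr 1; ring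
  have e2 : Real.cosh d = 2 * Real.cosh (d / 2) ^ 2 - 1 := by
    have h1 : Real.cosh (2 * (d / 2)) = Real.cosh (d / 2) ^ 2 + Real.sinh (d / 2) ^ 2 :=
      Real.cosh_two_mul _
    have h2 := Real.cosh_sq (d / 2)
    have h3 : 2 * (d / 2) = d := by ring
    rw [h3] at h1
    linarith
  have hcd : 0 < Real.cosh d := Real.cosh_pos _
  rw [Real.tanh_eq_sinh_div_cosh, Real.tanh_eq_sinh_div_cosh, e1] at h
  have h4 : Real.sinh (d / 2) / Real.cosh (d / 2) /
      (2 * Real.sinh (d / 2) * Real.cosh (d / 2) / Real.cosh d) =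
      Real.cosh d / (1 + Real.cosh d) := by
    have : 1 + Real.cosh d = 2 * Real.cosh (d / 2) ^ 2 := by rw [e2]; ring
    rw [this]
    field_simp
  rw [h4, div_eq_iff (by linarith)] at h
  have hl : (lam : ℝ) = 2 * Real.cos (2 * Real.pi / 7) := rfl
  have h5 := c0_eq
  have h6 := lam_hi
  have h7 : Real.cosh d * (2 - (lam : ℝ)) = lam := by rw [hl]; linarith
  have h8 : (2 : ℝ) - lam ≠ 0 := two_sub_ne lam
  exact mul_right_cancel₀ h8 (h7.trans h5.symm)

lemma tanh_of_cosh {d : ℝ} (hd : 0 < d) (h : Real.cosh d = c0) :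
    Real.tanh (d / 2) / Real.tanh d = Real.cos (2 * Real.pi / 7) := by
  have hs : 0 < Real.sinh (d / 2) := Real.sinh_pos_iff.mpr (by linarith)
  have hc : 0 < Real.cosh (d / 2) := Real.cosh_pos _
  have e1 : Real.sinh d = 2 * Real.sinh (d / 2) * Real.cosh (d / 2) := by
    rw [← Real.sinh_two_mul]; congr 1; ring
  have e2 : Real.cosh d = 2 * Real.cosh (d / 2) ^ 2 - 1 := by
    have h1 : Real.cosh (2 * (d / 2)) = Real.cosh (d / 2) ^ 2 + Real.sinh (d / 2) ^ 2 :=
      Real.cosh_two_mul _
    have h2 := Real.cosh_sq (d / 2)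
    have h3 : 2 * (d / 2) = d := by ring
    rw [h3] at h1
    linarith
  have hcd : 0 < Real.cosh d := Real.cosh_pos _
  rw [Real.tanh_eq_sinh_div_cosh, Real.tanh_eq_sinh_div_cosh, e1]
  have h4 : Real.sinh (d / 2) / Real.cosh (d / 2) /
      (2 * Real.sinh (d / 2) * Real.cosh (d / 2) / Real.cosh d) =
      Real.cosh d / (1 + Real.cosh d) := by
    have : 1 + Real.cosh d = 2 * Real.cosh (d / 2) ^ 2 := by rw [e2]; ring
    rw [this]
    field_simp
  rw [h4, div_eq_iff (by linarith), h]
  have := cC_eq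
  unfold cC at this
  have hl : (lam : ℝ) = 2 * Real.cos (2 * Real.pi / 7) := rfl
  rw [hl] at this
  linarith

lemma cassini (k : ℕ) : (Nat.fib (2 * k + 2) : ℝ) ^ 2 - 3 * Nat.fib (2 * k + 2) * Nat.fib (2 * k)
    + (Nat.fib (2 * k) : ℝ) ^ 2 = 1 := by
  induction k with
  | zero => simp
  | succ k ih =>
    have f1 : Nat.fib (2 * k + 2) = Nat.fib (2 * k) + Nat.fib (2 * k + 1) := Nat.fib_add_two
    have f2 : Nat.fib (2 * k + 3) = Nat.fib (2 * k + 1) + Nat.fib (2 * k + 2) := Nat.fib_add_two
    have f3 : Nat.fib (2 * k + 4) = Nat.fib (2 * k + 2) + Nat.fib (2 * k + 3) := Nat.fib_add_two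
    have g1 : 2 * (k + 1) + 2 = 2 * k + 4 := by ring
    have g2 : 2 * (k + 1) = 2 * k + 2 := by ring
    rw [g1, g2, f3, f2]
    rw [f1] at ih ⊢
    push_cast at ih ⊢
    linear_combination ih

/-- The real inequality between two complete layers. -/
lemma real_ineq {A B j b n : ℝ} (hc : A ^ 2 - 3 * A * B + B ^ 2 = 1) (hA : 0 < A)
    (hj : 0 < j) (hj2 : j < 7 * A) (hb : j * B ≤ b * A) (hn : n = 7 * (A - B) - 6 + j) :
    (7 * (A - B) + 14 * B + 3 * j - 2 * b) / 2 < √(5 / 4 * n ^ 2 + 15 * n - 4) := by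
  have h1 : (7 * (A - B) + 14 * B + 3 * j - 2 * b) / 2 ≤
      (A * (7 * (A - B) + 14 * B) + j * (3 * A - 2 * B)) / (2 * A) := by
    rw [div_le_div_iff₀ (by norm_num) (by positivity)]
    nlinarith
  refine lt_of_le_of_lt h1 (Real.lt_sqrt_of_sq_lt ?_)
  rw [div_pow, div_lt_iff₀ (by positivity)]
  have key : (5 / 4 * n ^ 2 + 15 * n - 4) * (2 * A) ^ 2 -
      (A * (7 * (A - B) + 14 * B) + j * (3 * A - 2 * B)) ^ 2 = 4 * j * (7 * A - j) := by
    rw [hn]
    linear_combination (196 * A ^ 2 + 28 * A * j - 4 * j ^ 2) * hc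
  have : 0 < 4 * j * (7 * A - j) := by
    apply mul_pos (by linarith) (by linarith)
  linarith

lemma real_eq {A B n : ℝ} (hc : A ^ 2 - 3 * A * B + B ^ 2 = 1)
    (hn : n = 7 * (A - B) - 6) :
    (7 * (A - B) + 14 * B) / 2 - 1 < √(5 / 4 * n ^ 2 + 15 * n - 4) := by
  have h1 : 5 / 4 * n ^ 2 + 15 * n - 4 = ((7 * (A - B) + 14 * B) / 2) ^ 2 := by
    rw [hn]; linear_combination (49) * hc
  rw [h1]
  have := Real.le_sqrt_of_sq_le (le_refl (((7 * (A - B) + 14 * B) / 2) ^ 2))
  linarith

/-- **Theorem.** There is a side length `d(7) > 0` with `cos (2π/7) = tanh (d/2) / tanh d`, and for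
every such `d` and every `n ≥ 1` there are `n` points of the hyperbolic plane with pairwise
distances at least `d` and at least `⌊7n/2 - √(5n²/4 + 15n - 4)⌋` pairs at distance exactly `d`; in
particular `e_d(n) ≥ ⌊7n/2 - √(5n²/4 + 15n - 4)⌋`. -/
theorem result :
    (∃ d : ℝ, 0 < d ∧ Real.tanh (d / 2) / Real.tanh d = Real.cos (2 * Real.pi / 7)) ∧
    ∀ d : ℝ, 0 < d → Real.tanh (d / 2) / Real.tanh d = Real.cos (2 * Real.pi / 7) →
      ∀ n : ℕ, 1 ≤ n →
        (∃ P : Finset UpperHalfPlane, P.card = n ∧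
          (∀ x ∈ P, ∀ y ∈ P, x ≠ y → d ≤ dist x y) ∧
          ⌊(7 / 2 : ℝ) * n - √(5 / 4 * (n : ℝ) ^ 2 + 15 * n - 4)⌋ ≤ (contacts d P : ℤ)) ∧
        ⌊(7 / 2 : ℝ) * n - √(5 / 4 * (n : ℝ) ^ 2 + 15 * n - 4)⌋ ≤ (maxContacts d n : ℤ) := by
  constructor
  · have h1 : (1 : ℝ) < c0 := by linarith [c0_lo]
    refine ⟨Real.arcosh c0, Real.arcosh_pos h1, ?_⟩
    exact tanh_of_cosh (Real.arcosh_pos h1) (Real.cosh_arcosh h1.le)
  intro d hd hd7 n hn
  have hcd := cosh_of_tanh hd hd7
  have hmain : ∃ P : Finset UpperHalfPlane, P.card = n ∧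
          (∀ x ∈ P, ∀ y ∈ P, x ≠ y → d ≤ dist x y) ∧
          ⌊(7 / 2 : ℝ) * n - √(5 / 4 * (n : ℝ) ^ 2 + 15 * n - 4)⌋ ≤ (contacts d P : ℤ) := by
    -- locate `n`
    obtain ⟨k, j, hj, hkj⟩ : ∃ k j, j < (lay k).length ∧ n + 6 = 7 * Nat.fib (2 * k + 1) + j := by
      have hex : ∃ k, n + 6 < 7 * Nat.fib (2 * k + 3) := by
        refine ⟨n + 1, ?_⟩
        have : 2 * (n + 1) + 3 ≤ Nat.fib (2 * (n + 1) + 3) := Nat.le_fib_self (by omega)
        omega
      have hk := Nat.find_spec hex
      have hmin : 7 * Nat.fib (2 * Nat.find hex + 1) ≤ n + 6 := by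
        rcases Nat.eq_zero_or_pos (Nat.find hex) with h0 | h0
        · rw [h0]; simp; omega
        · have h2 := Nat.find_min hex (m := Nat.find hex - 1) (by omega)
          rw [not_lt] at h2
          have e : 2 * (Nat.find hex - 1) + 3 = 2 * Nat.find hex + 1 := by omega
          rwa [e] at h2
      refine ⟨Nat.find hex, n + 6 - 7 * Nat.fib (2 * Nat.find hex + 1), ?_, by omega⟩
      rw [(lay_counts _).1]
      have f2 : Nat.fib (2 * Nat.find hex + 3) =
        Nat.fib (2 * Nat.find hex + 1) + Nat.fib (2 * Nat.find hex + 2) := Nat.fib_add_two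
      omega
    refine ⟨PS k j, ?_, PS_gap hd hcd k j, ?_⟩
    · rw [PS_card]
      have := rl_len k j hj.le
      omega
    · have h1 := E2_total hd hcd k j hj
      have h2 := E2_le_contacts hd (PS k j)
      set m := contacts d (PS k j) with hm
      set b := nB ((lay k).take j) with hb
      have h3 : 21 * Nat.fib (2 * k + 1) + (j + b + (j - 1)) ≤ m + (7 * Nat.fib (2 * k) + 21) := by
        omega
      have h4 := prefix_ineq k j hj.le
      rw [← hb] at h4
      have f1 : Nat.fib (2 * k + 2) = Nat.fib (2 * k) + Nat.fib (2 * k + 1) := Nat.fib_add_two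
      have hApos : 0 < Nat.fib (2 * k + 2) := Nat.fib_pos.mpr (by omega)
      have hjA : j < 7 * Nat.fib (2 * k + 2) := by rw [← (lay_counts k).1]; exact hj
      have hcas := cassini k
      -- real versions
      have hC : (Nat.fib (2 * k + 1) : ℝ) = Nat.fib (2 * k + 2) - Nat.fib (2 * k) := by
        rw [f1]; push_cast; ring
      have hApos' : (0 : ℝ) < Nat.fib (2 * k + 2) := by exact_mod_cast hApos
      have hjA' : (j : ℝ) < 7 * Nat.fib (2 * k + 2) := by exact_mod_cast hjA
      have h4' : (j : ℝ) * Nat.fib (2 * k) ≤ b * Nat.fib (2 * k + 2) := by exact_mod_cast h4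
      have hn' : (n : ℝ) = 7 * ((Nat.fib (2 * k + 2) : ℝ) - Nat.fib (2 * k)) - 6 + j := by
        rw [← hC]
        have : ((n + 6 : ℕ) : ℝ) = ((7 * Nat.fib (2 * k + 1) + j : ℕ) : ℝ) := by rw [hkj]
        push_cast at this
        linarith
      have hgoal : (7 / 2 : ℝ) * n - √(5 / 4 * (n : ℝ) ^ 2 + 15 * n - 4) < (m : ℝ) + 1 := by
        rcases Nat.eq_zero_or_pos j with h0 | h0
        · subst h0
          have h5 := real_eq (n := (n : ℝ)) hcas (by rw [hn']; simp)
          have h3' : (21 : ℝ) * Nat.fib (2 * k + 1) ≤ m + (7 * Nat.fib (2 * k) + 21) := by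
            have : 21 * Nat.fib (2 * k + 1) ≤ m + (7 * Nat.fib (2 * k) + 21) := by omega
            exact_mod_cast this
          rw [hC] at h3'
          push_cast at hn'
          linarith
        · have h5 := real_ineq (n := (n : ℝ)) hcas hApos' (by exact_mod_cast h0) hjA' h4' hn'
          have h3' : (21 : ℝ) * Nat.fib (2 * k + 1) + (2 * j + b - 1) ≤
              m + (7 * Nat.fib (2 * k) + 21) := by
            have : 21 * Nat.fib (2 * k + 1) + (2 * j + b) ≤ m + (7 * Nat.fib (2 * k) + 21) + 1 := by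
              omega
            have : (21 : ℝ) * Nat.fib (2 * k + 1) + (2 * j + b) ≤
                m + (7 * Nat.fib (2 * k) + 21) + 1 := by exact_mod_cast this
            linarith
          rw [hC] at h3'
          linarith
      have : ⌊(7 / 2 : ℝ) * n - √(5 / 4 * (n : ℝ) ^ 2 + 15 * n - 4)⌋ < (m : ℤ) + 1 := by
        rw [Int.floor_lt]
        push_cast
        exact hgoal
      omega
  refine ⟨hmain, ?_⟩
  obtain ⟨P, h1, h2, h3⟩ := hmain
  refine h3.trans ?_
  have hbdd : BddAbove {m | ∃ P : Finset UpperHalfPlane, P.card = n ∧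
    (∀ x ∈ P, ∀ y ∈ P, x ≠ y → d ≤ dist x y) ∧ contacts d P = m} := by
    refine ⟨n.choose 2, ?_⟩
    rintro m ⟨Q, hQ, -, rfl⟩
    unfold contacts
    refine (Finset.card_filter_le _ _).trans ?_
    rw [Finset.card_powersetCard, hQ]
  exact_mod_cast le_csSup hbdd ⟨P, h1, h2, rfl⟩

end Pool.Agent.Results.MP_0702e0_co.SpiralEquality
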